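import Pool.Agent.Helper282_TM.TypeA
import Pool.Agent.Helper282_TM.TypeB
import Pool.Agent.Helper282_TM.TypeC
import Pool.Agent.Helper282_TM.TypeD
import Pool.Agent.Helper282_TM.TypeE7
import Pool.Agent.Helper282_TM.TypeE8
import Pool.Agent.Helper282_TM.TypeEFG

/-!
# The `t = -1` phenomenon for upper ideals of `Δ(1)` (MP_1283eb_co, Q1)

For every Cartan matrix `A` of type `A_n`, `B_n`, `C_n`, `D_n`, `E_6`, `E_7`, `E_8`, `F_4`, `G_2` and
every labelling `l` of the simple roots by natural numbers, the value at `t = -1` of the rank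
generating function of the upper ideals of `Δ(1)` is the number of self-dual upper ideals.

Vectors are written in the basis of simple roots, `A i j = ⟨α_i, α_j^∨⟩` (the matrices are those of
Mathlib), so the partial order is the coordinatewise one.
-/

set_option autoImplicit false

namespace Pool.Agent.Results.MP_1283eb_co.TMinusOne

open Finset Polynomial Pool.Agent.Helper282_TM

variable {n : ℕ}

/-- The degree of a vector for the labelling `l` of the simple roots. -/
def deg (l : Fin n → ℕ) (v : Fin n → ℤ) : ℤ := ∑ i, v i * (l i : ℤ)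

/-- `Δ(1)`: the roots of degree `1`. -/
def Delta (A : Matrix (Fin n) (Fin n) ℤ) (l : Fin n → ℕ) : Set (Fin n → ℤ) :=
  {v | IsRoot A v ∧ deg l v = 1}

/-- `w` is the longest element of the group `W(0)` generated by the simple reflections of degree
`0`: it is a product of these, and it maps every positive root of degree `0` to a negative root. -/
def IsLongest (A : Matrix (Fin n) (Fin n) ℤ) (l : Fin n → ℕ) (w : (Fin n → ℤ) → (Fin n → ℤ)) :
    Prop :=
  (∃ u : List (Fin n), (∀ i ∈ u, l i = 0) ∧ w = act A u) ∧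
    ∀ v, IsRoot A v → 0 ≤ v → deg l v = 0 → w v ≤ 0

open Classical in
/-- The upper ideals of the finite poset `D`. -/
noncomputable def ideals (D : Finset (Fin n → ℤ)) : Finset (Finset (Fin n → ℤ)) :=
  D.powerset.filter fun I => ∀ x ∈ I, ∀ y ∈ D, x ≤ y → y ∈ I

/-- The rank generating function of the upper ideals. -/
noncomputable def genPoly (D : Finset (Fin n → ℤ)) : ℤ[X] := ∑ I ∈ ideals D, X ^ I.card

/-- The `t = -1` phenomenon for all the `ℤ`-gradings of the simple Lie algebra with Cartan matrix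
`A`: for every labelling `l`, `Δ(1)` is finite, the longest element `w` of `W(0)` exists and is
unique, it permutes `Δ(1)` and reverses the order, and the generating function at `-1` is the number
of the upper ideals `I` with `Δ(1) \ w(I) = I`. -/
def Phenomenon (A : Matrix (Fin n) (Fin n) ℤ) : Prop :=
  ∀ l : Fin n → ℕ, (Delta A l).Finite ∧ (∃! w, IsLongest A l w) ∧
    ∀ (D : Finset (Fin n → ℤ)) (w : (Fin n → ℤ) → (Fin n → ℤ)),
      (∀ v, v ∈ D ↔ v ∈ Delta A l) → IsLongest A l w →
        (D.image w = D ∧ ∀ x ∈ D, ∀ y ∈ D, x ≤ y → w y ≤ w x) ∧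
        (genPoly D).eval (-1) = (((ideals D).filter fun I => D \ I.image w = I).card : ℤ)

theorem isLongest_iff (A : Matrix (Fin n) (Fin n) ℤ) (l : Fin n → ℕ)
    (w : (Fin n → ℤ) → (Fin n → ℤ)) : IsLongest A l w ↔ Longest A {i | l i = 0} w := by
  have key : ∀ v : Fin n → ℤ, 0 ≤ v → (deg l v = 0 ↔ ∀ i, i ∉ {i | l i = 0} → v i = 0) := by
    intro v hv
    unfold deg
    rw [Finset.sum_eq_zero_iff_of_nonneg fun i _ => mul_nonneg (hv i) (by positivity)]
    constructor
    · intro h i hi
      rcases mul_eq_zero.mp (h i (Finset.mem_univ i)) with h1 | h1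
      · exact h1
      · exact absurd (by exact_mod_cast h1 : l i = 0) hi
    · intro h i _
      by_cases hi : l i = 0
      · simp [hi]
      · rw [h i hi, zero_mul]
  unfold IsLongest Longest InW
  refine and_congr Iff.rfl ?_
  constructor
  · intro h v h1 h2 h3
    exact h v h1 h2 ((key v h2).mpr h3)
  · intro h v h1 h2 h3
    exact h v h1 h2 ((key v h2).mp h3)

theorem phenomenon_of {A : Matrix (Fin n) (Fin n) ℤ} (hF : Fine A) (hH : Holds A) :
    Phenomenon A := by
  intro l
  obtain ⟨h1, ⟨w, hw⟩, h3⟩ := tMinusOne_of_holds hF hH l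
  refine ⟨h1, ⟨w, (isLongest_iff A l w).mpr hw, fun w' hw' =>
    uniq A hF _ w' w ((isLongest_iff A l w').mp hw') hw⟩, fun D w' hD hw' => ?_⟩
  obtain ⟨g1, g2, g3⟩ := h3 w' ((isLongest_iff A l w').mp hw') D hD
  refine ⟨⟨g1, g2⟩, ?_⟩
  have e : ideals D = ups (fun x y => x ≤ y) D := by
    ext I
    rw [mem_ups]
    simp only [ideals, Up, Finset.mem_filter, Finset.mem_powerset]
  unfold genPoly
  rw [eval_finsetSum, e]
  simp only [eval_pow, eval_X]
  exact g3

/-- The `t = -1` phenomenon holds for all the `ℤ`-gradings of all the simple Lie algebras. -/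
theorem result :
    (∀ n, Phenomenon (CartanMatrix.A n)) ∧ (∀ n, Phenomenon (CartanMatrix.B n)) ∧
    (∀ n, Phenomenon (CartanMatrix.C n)) ∧ (∀ n, 3 ≤ n → Phenomenon (CartanMatrix.D n)) ∧
    Phenomenon CartanMatrix.E₆ ∧ Phenomenon CartanMatrix.E₇ ∧ Phenomenon CartanMatrix.E₈ ∧
    Phenomenon CartanMatrix.F₄ ∧ Phenomenon CartanMatrix.G₂ :=
  ⟨fun n => phenomenon_of (fineA n) (holdsA n),
    fun n => phenomenon_of (typeB n).1 (typeB n).2,
    fun n => phenomenon_of (typeC n).1 (typeC n).2,
    fun n hn => phenomenon_of (fineD n hn) (holdsD n hn),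
    phenomenon_of typeE6.1 typeE6.2, phenomenon_of typeE7.1 typeE7.2,
    phenomenon_of typeE8.1 typeE8.2, phenomenon_of typeF4.1 typeF4.2,
    phenomenon_of typeG2.1 typeG2.2⟩

end Pool.Agent.Results.MP_1283eb_co.TMinusOne
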